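import Mathlib
import Pool.Agent.CB.Fin1All
import Pool.Agent.CB.Final2
import Pool.Agent.CB.REL
import Pool.Agent.CB.ISO1
import Pool.Agent.CB.ISO2
import Pool.Agent.CB.ISO3

/-!
# The Chow-Betti numbers of hypersimplices do not depend on the realization

For all `1 ≤ k < n` any two realizations of the combinatorial type of the hypersimplex `Δ(k, n)` as a rational polytope
have normal fans with the same Chow-Betti numbers, and so have any two realizations of the combinatorial type of its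
dual. The numbers are given explicitly.

The Chow groups `A_j` of the complete toric variety of the normal fan are given by the presentation of Fulton and
Sturmfels: generators `[V(σ)]` for the cones of codimension `j`, that is for the faces of the polytope of dimension
`j`, relations `∑ ⟨u, n_{σ,τ}⟩ [V(σ)] = 0` for the cones `τ` of codimension `j + 1` and `u ∈ M(τ)`.

The pieces of the proof were written by many seats of the team (files `Pool/Agent/CB/..`); the dual half was
organized by helper97.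
-/

set_option autoImplicit false

namespace Pool.Agent.Results.MP_745f23_co.RealizationIndependence

open Finset Module

/-- the faces of the convex hull of the points `p i`, as sets of indices: the sets where some linear
functional is minimal -/
def IsFace {ι : Type} {d : ℕ} (p : ι → Fin d → ℚ) (T : Finset ι) : Prop :=
  T.Nonempty ∧ ∃ f : (Fin d → ℚ) →ₗ[ℚ] ℚ, ∀ i, i ∈ T ↔ ∀ j, f (p i) ≤ f (p j)

/-- the linear space parallel to the face `T` -/
def lin {ι : Type} {d : ℕ} (p : ι → Fin d → ℚ) (T : Finset ι) : Submodule ℚ (Fin d → ℚ) :=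
  Submodule.span ℚ {x | ∃ i ∈ T, ∃ j ∈ T, x = p i - p j}

/-- the dimension of the face `T` -/
noncomputable def dim {ι : Type} {d : ℕ} (p : ι → Fin d → ℚ) (T : Finset ι) : ℕ := finrank ℚ (lin p T)

/-- integral vectors -/
def Integral {d : ℕ} (x : Fin d → ℚ) : Prop := ∀ c, ∃ z : ℤ, x c = z

/-- `ν` is the primitive inner normal of the facet `F` of the face `G` (as a functional on `lin p G`): it
vanishes on `F`, is nonnegative on `G`, and maps the lattice of `lin p G` onto the integers -/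
def Normal {ι : Type} {d : ℕ} (p : ι → Fin d → ℚ) (F G : Finset ι) (ν : (Fin d → ℚ) →ₗ[ℚ] ℚ) : Prop :=
  (∀ x ∈ lin p F, ν x = 0) ∧ (∀ i ∈ G, ∀ j ∈ F, 0 ≤ ν (p i - p j)) ∧
    (∀ x ∈ lin p G, Integral x → ∃ z : ℤ, ν x = z) ∧ ∃ x ∈ lin p G, Integral x ∧ ν x = 1

/-- the faces of dimension `j`, that is the cones of codimension `j` of the normal fan -/
abbrev FaceOf {ι : Type} {d : ℕ} (p : ι → Fin d → ℚ) (j : ℕ) : Type := {T : Finset ι // IsFace p T ∧ dim p T = j}

/-- the relation of the face `G` of dimension `j + 1` (the cone `τ`) and the lattice vector `u` of `lin p G`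
(an element of `M(τ)`): the sum of the `⟨u, n_{σ,τ}⟩ [V(σ)]` -/
def IsRelation {ι : Type} {d : ℕ} (p : ι → Fin d → ℚ) (j : ℕ) (r : FaceOf p j →₀ ℚ) : Prop :=
  ∃ G : Finset ι, IsFace p G ∧ dim p G = j + 1 ∧ ∃ u ∈ lin p G, Integral u ∧
    ∀ F : FaceOf p j, (¬ F.1 ⊆ G → r F = 0) ∧ (F.1 ⊆ G → ∃ ν, Normal p F.1 G ν ∧ r F = ν u)

/-- the `j`-th Chow-Betti number of the normal fan: the dimension of the rational Chow group `A_j` -/
noncomputable def chowBetti {ι : Type} {d : ℕ} (p : ι → Fin d → ℚ) (j : ℕ) : ℕ :=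
  finrank ℚ ((FaceOf p j →₀ ℚ) ⧸ Submodule.span ℚ {r : FaceOf p j →₀ ℚ | IsRelation p j r})

/-- the points `p i` are the vertices of a full-dimensional polytope (each once) -/
def Polytope {ι : Type} [Fintype ι] {d : ℕ} (p : ι → Fin d → ℚ) : Prop :=
  lin p univ = ⊤ ∧ ∀ i, IsFace p {i}

/-- the vertices of the hypersimplex `Δ(k, n)`, indexed by the `k`-subsets of `Fin n` -/
def hyp (k n : ℕ) (S : {S : Finset (Fin n) // S.card = k}) : Fin n → ℚ := fun m => if m ∈ S.1 then 1 else 0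

/-- the face lattice is isomorphic to the face lattice of the hypersimplex `Δ(k, n)` (nonempty faces, ordered by
inclusion) -/
def HasType {ι : Type} [Fintype ι] {d : ℕ} (p : ι → Fin d → ℚ) (k n : ℕ) : Prop :=
  Nonempty ({T : Finset ι // IsFace p T} ≃o
    {T : Finset {S : Finset (Fin n) // S.card = k} // IsFace (hyp k n) T})

/-- the face lattice is isomorphic to the face lattice of the dual of `Δ(k, n)` (nonempty proper faces, the order
is reversed) -/
def HasDualType {ι : Type} [Fintype ι] {d : ℕ} (p : ι → Fin d → ℚ) (k n : ℕ) : Prop :=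
  Nonempty ({T : Finset ι // IsFace p T ∧ T ≠ univ} ≃o
    ({T : Finset {S : Finset (Fin n) // S.card = k} // IsFace (hyp k n) T ∧ T ≠ univ})ᵒᵈ)

theorem chowBetti_eq {ι : Type} {d : ℕ} (p : ι → Fin d → ℚ) (j : ℕ) :
    chowBetti p j = Pool.Agent.CB.chowBetti p j := rfl

theorem polytope_iff {ι : Type} [Fintype ι] {d : ℕ} (p : ι → Fin d → ℚ) :
    Polytope p ↔ Pool.Agent.CB.Polytope p := Iff.rfl

theorem hasType_iff {ι : Type} [Fintype ι] {d : ℕ} (p : ι → Fin d → ℚ) (k n : ℕ) :
    HasType p k n ↔ Pool.Agent.CB.HasType p k n := Iff.rfl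

theorem hasDualType_iff {ι : Type} [Fintype ι] {d : ℕ} (p : ι → Fin d → ℚ) (k n : ℕ) :
    HasDualType p k n ↔ Pool.Agent.CB.HasDualType p k n := Iff.rfl

/-- the numbers for the type of the hypersimplex -/
theorem numbers (h1 : Pool.Agent.CB.S_FIN1) (h2 : Pool.Agent.CB.S_ISO1) (k n : ℕ) (hk : 1 ≤ k) (hkn : k < n)
    (ι : Type) [Fintype ι] (p : ι → Fin (n - 1) → ℚ) (hp : Polytope p) (ht : HasType p k n) (j : ℕ) :
    chowBetti p j = if j = 0 then 1 else if j < n then
      Pool.Agent.CB.bs n (min (min (n - 1 - j) (j - 1)) (min (k - 1) (n - k - 1))) else 0 := by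
  classical
  obtain ⟨p', hp', h⟩ := h2 k n hk hkn ι p hp ht
  rw [chowBetti_eq, h j, h1 k n hk hkn p' hp' j]

/-- the numbers for the duals of the simplices -/
theorem numbers' (h1 : Pool.Agent.CB.S_FIN1) (h2 : Pool.Agent.CB.S_ISO3) (k n : ℕ) (hk : 1 ≤ k) (hkn : k < n)
    (hk' : k = 1 ∨ k = n - 1) (ι : Type) [Fintype ι] (p : ι → Fin (n - 1) → ℚ) (hp : Polytope p)
    (ht : HasDualType p k n) (j : ℕ) :
    chowBetti p j = if j = 0 then 1 else if j < n then
      Pool.Agent.CB.bs n (min (min (n - 1 - j) (j - 1)) (min (k - 1) (n - k - 1))) else 0 := by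
  classical
  obtain ⟨p', hp', h⟩ := h2 k n hk hkn hk' ι p hp ht
  rw [chowBetti_eq, h j, h1 k n hk hkn p' hp' j]

/-- the numbers for the duals, `2 ≤ k ≤ n - 2` -/
theorem dualNumbers (h2 : Pool.Agent.CB.S_ISO2) (k n : ℕ) (hk : 2 ≤ k) (hkn : k + 2 ≤ n)
    (ι : Type) [Fintype ι] (p : ι → Fin (n - 1) → ℚ) (hp : Polytope p) (ht : HasDualType p k n) :
    (∀ j, j + 4 ≤ n → chowBetti p j = 1) ∧
      2 * chowBetti p (n - 3) + 2 * (n.choose k * (n - 2)) = n.choose k * (k * (n - k)) + 2 * (n - 1).choose 2 ∧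
      chowBetti p (n - 2) + (n - 1) = n.choose k ∧ chowBetti p (n - 1) = 1 ∧ ∀ j, n ≤ j → chowBetti p j = 0 := by
  classical
  obtain ⟨q, hq, h⟩ := h2 k n hk hkn ι p hp ht
  have h3 := Pool.Agent.CB.final2 n k hk hkn q hq
  refine ⟨fun j hj => ?_, ?_, ?_, ?_, fun j hj => ?_⟩
  · rw [chowBetti_eq, h j]; exact h3.1 j hj
  · rw [chowBetti_eq, h]; exact h3.2.1
  · rw [chowBetti_eq, h]; exact h3.2.2.1
  · rw [chowBetti_eq, h]; exact h3.2.2.2.1
  · rw [chowBetti_eq, h j]; exact h3.2.2.2.2 j hj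

/-- **The Chow-Betti numbers of the realizations of a hypersimplex, or of its dual, are all the same.** -/
theorem result :
    -- (1) two realizations of the same type, `Δ(k, n)` or its dual, have the same numbers
    (∀ k n : ℕ, 1 ≤ k → k < n → ∀ (ι ι' : Type) [Fintype ι] [Fintype ι'] (p : ι → Fin (n - 1) → ℚ)
      (p' : ι' → Fin (n - 1) → ℚ), Polytope p → Polytope p' →
      (HasType p k n ∧ HasType p' k n) ∨ (HasDualType p k n ∧ HasDualType p' k n) →
      ∀ j, chowBetti p j = chowBetti p' j) ∧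
    -- (2) the numbers for `Δ(k, n)`
    (∀ k n : ℕ, 1 ≤ k → k < n → ∀ (ι : Type) [Fintype ι] (p : ι → Fin (n - 1) → ℚ), Polytope p → HasType p k n →
      chowBetti p 0 = 1 ∧ ∀ j, 1 ≤ j → j < n → chowBetti p j =
        ∑ l ∈ range (min (min (n - 1 - j) (j - 1)) (min (k - 1) (n - k - 1)) + 1), n.choose l) ∧
    -- (3) the numbers for the dual of `Δ(k, n)`, `2 ≤ k ≤ n - 2`
    (∀ k n : ℕ, 2 ≤ k → k + 2 ≤ n → ∀ (ι : Type) [Fintype ι] (p : ι → Fin (n - 1) → ℚ), Polytope p →
      HasDualType p k n →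
      (∀ j, j + 4 ≤ n → chowBetti p j = 1) ∧
      (chowBetti p (n - 3) : ℚ) = n.choose k * (k * (n - k) / 2 - (n - 2)) + (n - 1).choose 2 ∧
      (chowBetti p (n - 2) : ℚ) = n.choose k - (n - 1) ∧ chowBetti p (n - 1) = 1) := by
  classical
  have h1 : Pool.Agent.CB.S_FIN1 := Pool.Agent.CB.all_FIN1
  have hr : Pool.Agent.CB.S_REL := Pool.Agent.CB.t_REL
  have hi1 : Pool.Agent.CB.S_ISO1 := Pool.Agent.CB.t_ISO1 hr
  have hi2 : Pool.Agent.CB.S_ISO2 := Pool.Agent.CB.t_ISO2 hr Pool.Agent.CB.t_FCS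
  have hi3 : Pool.Agent.CB.S_ISO3 := Pool.Agent.CB.t_ISO3 hr
  refine ⟨?_, ?_, ?_⟩
  · intro k n hk hkn ι ι' _ _ p p' hp hp' ht j
    rcases ht with ⟨ht, ht'⟩ | ⟨ht, ht'⟩
    · rw [numbers h1 hi1 k n hk hkn ι p hp ht j, numbers h1 hi1 k n hk hkn ι' p' hp' ht' j]
    · by_cases hk' : k = 1 ∨ k = n - 1
      · rw [numbers' h1 hi3 k n hk hkn hk' ι p hp ht j, numbers' h1 hi3 k n hk hkn hk' ι' p' hp' ht' j]
      · obtain ⟨a1, a2, a3, a4, a5⟩ := dualNumbers hi2 k n (by omega) (by omega) ι p hp ht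
        obtain ⟨b1, b2, b3, b4, b5⟩ := dualNumbers hi2 k n (by omega) (by omega) ι' p' hp' ht'
        rcases Nat.lt_or_ge j (n - 3) with hj | hj
        · rw [a1 j (by omega), b1 j (by omega)]
        rcases Nat.lt_or_ge j n with hj' | hj'
        · have hj3 : j = n - 3 ∨ j = n - 2 ∨ j = n - 1 := by omega
          rcases hj3 with rfl | rfl | rfl
          · omega
          · omega
          · rw [a4, b4]
        · rw [a5 j hj', b5 j hj']
  · intro k n hk hkn ι _ p hp ht
    refine ⟨?_, fun j hj hjn => ?_⟩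
    · rw [numbers h1 hi1 k n hk hkn ι p hp ht 0, if_pos rfl]
    · rw [numbers h1 hi1 k n hk hkn ι p hp ht j, if_neg (by omega), if_pos hjn]
      rfl
  · intro k n hk hkn ι _ p hp ht
    obtain ⟨a1, a2, a3, a4, -⟩ := dualNumbers hi2 k n hk hkn ι p hp ht
    refine ⟨a1, ?_, ?_, a4⟩
    · have h : (2 * chowBetti p (n - 3) + 2 * (n.choose k * (n - 2)) : ℚ) =
          n.choose k * (k * (n - k)) + 2 * (n - 1).choose 2 := by
        have h0 : (((2 * chowBetti p (n - 3) + 2 * (n.choose k * (n - 2)) : ℕ) : ℚ)) =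
          ((n.choose k * (k * (n - k)) + 2 * (n - 1).choose 2 : ℕ) : ℚ) := by rw [a2]
        push_cast [Nat.cast_sub (show 2 ≤ n by omega), Nat.cast_sub (show k ≤ n by omega)] at h0
        exact h0
      linarith
    · have h0 : (((chowBetti p (n - 2) + (n - 1) : ℕ) : ℚ)) = (n.choose k : ℚ) := by rw [a3]
      push_cast [Nat.cast_sub (show 1 ≤ n by omega)] at h0
      linarith

end Pool.Agent.Results.MP_745f23_co.RealizationIndependence
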